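import Pool.Agent.Helper1.SP.Ratio2

set_option autoImplicit false

/-! # The ratio `c⁺ / c⁻` for the Schur functors of a motive

Let `M` be a pure motive over `ℚ` with coefficients in a number field `E`, without `(w/2, w/2)`-classes and
with arbitrary Hodge numbers, `k` odd, `e = ∑ c(σ) σ` an idempotent of `E[S_k]` and `T = e (M ^ ⊗ k)`; every
Schur functor `S_λ M`, `|λ| = k`, is of this form. Let `T` have no middle classes (automatic if `w` is odd).
Then `c^±(T) / c^∓(T) = (c^±(M) / c^∓(M)) ^ (x - y)` modulo `Eˣ`, where, with `a = dim M^+` and `N_j` the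
dimension of the part of degree `(k - j, j)` of `e ((E ^ a ⊕ E ^ a) ^ ⊗ k)`,
`a x = ∑ (k - 2 j) N_j` over the even `j < k / 2` and `a y = ∑ (k - 2 j) N_j` over the odd `j < k / 2`.

Proof: let `J` be the operator `sign (p - q)` on the classes of type `(p, q)`. It anticommutes with `F_∞` and
changes the sign of the projection to `M_DR / F^±`; so `c⁺ / c⁻` is the determinant of `J` between the
eigenspaces of `F_∞`, in `E`-bases, up to sign. On `T` there are two such operators: `J_T` and
`K = J_M ⊗ … ⊗ J_M`. In a basis of Hodge classes of `M` permuted by `F_∞`, the projector `e`, `F_∞` and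
`J_T K` have matrices over `E`, so the determinant of `J_T K` on the eigenspaces of `F_∞` is in `E`. The
determinant of `K` is computed by a character of `GL_a × GL_a`, which is a product of powers of determinants.

The definitions (`IsSchur`, `gradedDim`, `evenSum`, `oddSum`, `RatioPower`, `RatioTransfer`) are in
`Pool.Agent.Helper1.SP.SDefs`, `tp` (the tensor power of a matrix), `sym` (the action of `∑ c(σ) σ`) and
`eps` in `Pool.Agent.Helper1.SP.Tp`; `PMot`, `PMot.IsPeriod`, `PMot.NoMiddle`, `UnitPeriods`, `Formula` and
`tpi` are the definitions of the library modules `DP.CDefs` and `DP.CMain`. -/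

namespace Pool.Agent.Helper1.Variants.SchurFunctorRatio

open TensorProduct Pool.Agent.X33.DP Pool.Agent.X33.DP.PMot Pool.Agent.Helper1.SP

/-- The periods of `M` and `T` exist and are units; the ratio `c^s(T) / c^{-s}(T)` is a power of the ratio
`c^s(M) / c^{-s}(M)`; if Deligne's formula holds for the (non-zero) value `v'` at `m'`, then Deligne's
formula for `v` at an integer `m` of the other parity is equivalent to a formula for `v / v'` in terms of
the periods of `M` only. -/
theorem result (E : Type) [Field E] [NumberField E] (M T : PMot E (E ⊗[ℚ] ℂ)) (hM : NoMiddle M)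
    (hT0 : NoMiddle T) (k : ℕ) (hk : Odd k) (c : Equiv.Perm (Fin k) → E)
    (β : Matrix (Fin T.N) (Fin k → Fin M.N) E) (hT : IsSchur M T k c β) :
    UnitPeriods M ∧ UnitPeriods T ∧
      ∃ x y : ℕ, M.dim 1 * x = evenSum k (gradedDim (M.dim 1) c) ∧
        M.dim 1 * y = oddSum k (gradedDim (M.dim 1) c) ∧ RatioPower M T x y ∧
        RatioTransfer (tpi E) M T x y := by
  obtain ⟨x, y, hx, hy, hP⟩ := ratioPower hM hT0 hk hT
  exact ⟨unitPeriods hM, unitPeriods hT0, x, y, hx, hy, hP,
    ratioTransfer hM hT0 hP (tpi E) (tpi_mul E)⟩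

end Pool.Agent.Helper1.Variants.SchurFunctorRatio
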